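import Pool.Agent.Helper4.T7.StD

/-!
# Project T7, module Sur: solving the inhomogeneous relation
-/

set_option autoImplicit false

namespace Pool.Agent.Helper89.T7

open Pool.Agent.Helper4.T7
open Pool.Agent.Helper14.W5 (tr5 Fn5 op5 oA Wd5 dX dY Lw bb5 S5Trm S5Low0 S5Nfa S5Lw1 S5Bb)

private theorem alg_Sur {V : Type} [AddCommGroup V] [Module (ZMod 5) V]
    (M T X Y : Module.End (ZMod 5) V) (P Q : V) :
    (X P + Y Q) - (((2 : ZMod 5) • Q - P) - T ((2 : ZMod 5) • Q - P) -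
      ((2 : ZMod 5) • Q - M ((2 : ZMod 5) • Q))) =
    (T ((2 : ZMod 5) • Q - P) - ((2 : ZMod 5) • Q - P) - X ((2 : ZMod 5) • Q - P)) -
      (2 : ZMod 5) • (M Q - Q - X Q - (3 : ZMod 5) • Y Q) := by
  simp only [map_sub, map_smul]
  match_scalars <;> decide

private theorem decomp_Sur (hLow0 : S5Low0) (hBb : S5Bb) (r s : ℕ) (e : ℤ) (E : Fn5 (5 ^ r) (5 ^ s))
    (he : e < 5 ^ r + 5 ^ s - 2) (hE : E ∈ Wd5 e) :
    ∃ U V : Fn5 (5 ^ r) (5 ^ s), U ∈ Wd5 (e + 1) ∧ V ∈ Wd5 (e + 1) ∧ dX U + dY V = E := by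
  obtain ⟨_, _, _, _, hmono, _⟩ := hLow0 r s
  obtain ⟨h1, h2, h3, _, _, h6⟩ := hBb r s
  set c : ℕ → ℕ → ZMod 5 := fun i j =>
    ((dX ^ i * dY ^ j : Module.End (ZMod 5) (Fn5 (5 ^ r) (5 ^ s))) E) 0 0 with hc
  have hc0 : ∀ i j : ℕ, e < (i : ℤ) + j → c i j = 0 := by
    intro i j hij
    have : ((dX ^ i * dY ^ j : Module.End (ZMod 5) (Fn5 (5 ^ r) (5 ^ s))) E) = 0 := hE i j hij
    rw [hc]
    simp only [this]
    rfl
  have hj : ∀ i j : ℕ, i < 5 ^ r → (i : ℤ) + j ≤ e → ¬ (i + 1 < 5 ^ r) → j + 1 < 5 ^ s := by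
    intro i j hi hij hi1
    have h7 : i + 1 = 5 ^ r := by omega
    have h8 : (i : ℤ) + 1 = 5 ^ r := by exact_mod_cast h7
    have h9 : (j : ℤ) + 1 < 5 ^ s := by linarith
    exact_mod_cast h9
  refine ⟨∑ i ∈ Finset.range (5 ^ r), ∑ j ∈ Finset.range (5 ^ s),
      (if i + 1 < 5 ^ r then c i j • bb5 (i + 1) j else 0),
    ∑ i ∈ Finset.range (5 ^ r), ∑ j ∈ Finset.range (5 ^ s),
      (if i + 1 < 5 ^ r then 0 else c i j • bb5 i (j + 1)), ?_, ?_, ?_⟩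
  · refine Submodule.sum_mem _ fun i hi => Submodule.sum_mem _ fun j hj => ?_
    rw [Finset.mem_range] at hi hj
    split_ifs with h
    · by_cases hij : (i : ℤ) + j ≤ e
      · refine Submodule.smul_mem _ _ (hmono _ _ ?_ (h1 (i + 1) j h hj))
        push_cast
        linarith
      · rw [hc0 i j (not_le.1 hij), zero_smul]
        exact Submodule.zero_mem _
    · exact Submodule.zero_mem _
  · refine Submodule.sum_mem _ fun i hi => Submodule.sum_mem _ fun j _ => ?_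
    rw [Finset.mem_range] at hi
    split_ifs with h
    · exact Submodule.zero_mem _
    · by_cases hij : (i : ℤ) + j ≤ e
      · refine Submodule.smul_mem _ _ (hmono _ _ ?_ (h1 i (j + 1) hi (hj i j hi hij h)))
        push_cast
        linarith
      · rw [hc0 i j (not_le.1 hij), zero_smul]
        exact Submodule.zero_mem _
  · refine Eq.trans ?_ (h6 E).symm
    rw [map_sum, map_sum, ← Finset.sum_add_distrib]
    refine Finset.sum_congr rfl fun i hi => ?_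
    rw [map_sum, map_sum, ← Finset.sum_add_distrib]
    refine Finset.sum_congr rfl fun j hj' => ?_
    rw [Finset.mem_range] at hi hj'
    have hcc : ((dX ^ i * dY ^ j : Module.End (ZMod 5) (Fn5 (5 ^ r) (5 ^ s))) E) 0 0 = c i j := rfl
    rw [hcc]
    by_cases h : i + 1 < 5 ^ r
    · rw [if_pos h, if_pos h, map_smul, map_zero, add_zero, h2 i j h hj']
    · rw [if_neg h, if_neg h, map_smul, map_zero, zero_add]
      by_cases hij : (i : ℤ) + j ≤ e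
      · rw [h3 i j hi (hj i j hi hij h)]
      · rw [hc0 i j (not_le.1 hij), zero_smul, zero_smul]

/-- One step of the induction. -/
private theorem step_Sur (hLow0 : S5Low0) (hNfa : S5Nfa)
    (hw : TLw1) (hBb : S5Bb) (r s : ℕ) (e : ℤ) (E : Fn5 (5 ^ r) (5 ^ s))
    (he : e < 5 ^ r + 5 ^ s - 2) (hE : E ∈ Wd5 e) :
    ∃ f b : Fn5 (5 ^ r) (5 ^ s), f ∈ Wd5 (e + 1) ∧ b ∈ Wd5 (e + 1) ∧
      E - (f - op5 1 1 0 1 f - (b - op5 19 (-6) 7 (-11) b)) ∈
        (Wd5 (e - 1) : Submodule (ZMod 5) (Fn5 (5 ^ r) (5 ^ s))) := by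
  obtain ⟨_, _, _, _, hmono, _⟩ := hLow0 r s
  obtain ⟨_, _, _, _, hA, _⟩ := hNfa r s
  obtain ⟨hM, -⟩ := hw r s
  obtain ⟨P, Q, hP, hQ, hPQ⟩ := decomp_Sur hLow0 hBb r s e E he hE
  have hF : (2 : ZMod 5) • Q - P ∈ (Wd5 (e + 1) : Submodule (ZMod 5) (Fn5 (5 ^ r) (5 ^ s))) :=
    Submodule.sub_mem _ (Submodule.smul_mem _ _ hQ) hP
  refine ⟨(2 : ZMod 5) • Q - P, (2 : ZMod 5) • Q, hF, Submodule.smul_mem _ _ hQ, ?_⟩
  rw [← hPQ, alg_Sur (op5 19 (-6) 7 (-11)) (op5 1 1 0 1) dX dY P Q]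
  have c1 : op5 1 1 0 1 ((2 : ZMod 5) • Q - P) - ((2 : ZMod 5) • Q - P) -
      dX ((2 : ZMod 5) • Q - P) ∈
      (Wd5 (e - 1) : Submodule (ZMod 5) (Fn5 (5 ^ r) (5 ^ s))) :=
    hmono _ _ (by linarith) (hA _ _ hF)
  have c2 : op5 19 (-6) 7 (-11) Q - Q - dX Q - (3 : ZMod 5) • dY Q ∈
      (Wd5 (e - 1) : Submodule (ZMod 5) (Fn5 (5 ^ r) (5 ^ s))) :=
    hmono _ _ (by linarith) (hM _ _ hQ)
  exact Submodule.sub_mem _ c1 (Submodule.smul_mem _ _ c2)

private theorem main_Sur (hLow0 : S5Low0) (hNfa : S5Nfa)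
    (hw : TLw1) (hBb : S5Bb) (r s : ℕ) :
    ∀ (n : ℕ) (e : ℤ) (E : Fn5 (5 ^ r) (5 ^ s)), e < n → e < 5 ^ r + 5 ^ s - 2 → E ∈ Wd5 e →
    ∃ f b : Fn5 (5 ^ r) (5 ^ s), f ∈ Wd5 (e + 1) ∧ b ∈ Wd5 (e + 1) ∧
      f - op5 1 1 0 1 f - (b - op5 19 (-6) 7 (-11) b) = E := by
  have hL := hLow0 r s
  obtain ⟨_, _, _, _, hmono, _, _, _, _, _, _, _, _, hneg⟩ := hL
  intro n
  induction n with
  | zero =>
    intro e E he _ hE
    have h1 : E = 0 := hneg E (hmono e (-1) (by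
      have : e < 0 := by exact_mod_cast he
      omega) hE)
    refine ⟨0, 0, Submodule.zero_mem _, Submodule.zero_mem _, ?_⟩
    rw [h1, map_zero, map_zero]
    simp
  | succ n ih =>
    intro e E he he2 hE
    obtain ⟨f, b, hf, hb, hR⟩ := step_Sur hLow0 hNfa hw hBb r s e E he2 hE
    obtain ⟨f', b', hf', hb', hR'⟩ := ih (e - 1) _ (by push_cast at he; linarith)
      (by linarith) hR
    have h6 : e - 1 + 1 = e := by ring
    rw [h6] at hf' hb'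
    refine ⟨f + f', b + b', Submodule.add_mem _ hf (hmono _ _ (by linarith) hf'),
      Submodule.add_mem _ hb (hmono _ _ (by linarith) hb'), ?_⟩
    rw [map_add (op5 1 1 0 1) f f', map_add (op5 19 (-6) 7 (-11)) b b']
    have h7 : f + f' - (op5 1 1 0 1 f + op5 1 1 0 1 f') -
        (b + b' - (op5 19 (-6) 7 (-11) b + op5 19 (-6) 7 (-11) b')) =
        (f - op5 1 1 0 1 f - (b - op5 19 (-6) 7 (-11) b)) +
        (f' - op5 1 1 0 1 f' - (b' - op5 19 (-6) 7 (-11) b')) := by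
      abel
    rw [h7, hR']
    abel

theorem hSur (_ht : S5Trm) (hl : S5Low0) (hn : S5Nfa) (_h1 : S5Lw1) (hw : TLw1) (hb : S5Bb) :
    TSur := by
  intro r s e E he hE
  obtain ⟨f, b, hf, hbb, h⟩ := main_Sur hl hn hw hb r s (e + 1).toNat e E (by
    have := Int.self_le_toNat (e + 1)
    linarith) he hE
  refine ⟨![f, 0, b, 0, 0], ?_, ?_⟩
  · intro i
    fin_cases i
    · exact hf
    · exact Submodule.zero_mem _
    · exact hbb
    · exact Submodule.zero_mem _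
    · exact Submodule.zero_mem _
  · have e0 : (DfQ (![f, 0, b, 0, 0] : Fin 5 → Fn5 (5 ^ r) (5 ^ s)) : Fn5 (5 ^ r) (5 ^ s)) =
        f - op5 1 1 0 1 f - ((0 : Fn5 (5 ^ r) (5 ^ s)) - op5 14 (-3) 7 (-7) 0) -
          (b - op5 19 (-6) 7 (-11) b) - (0 - op5 24 (-11) 7 (-16) 0) -
          (0 - op5 28 (-17) 7 (-21) 0) := rfl
    rw [e0, map_zero, map_zero, map_zero, sub_zero, sub_zero, sub_zero, sub_zero]
    exact h

end Pool.Agent.Helper89.T7
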